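import Pool.Agent.H1.KwD

open MeasureTheory KWq

namespace Pool.Agent.Results.MP_97409a_pr.LowerBoundFails

/-- For every `k ≥ 2` and every `ρ` with `1 - 1/k < ρ < 1` there are moments `ET, ES, ET², ES²`
with `ES/(k ET) = ρ` and a system in `𝒬₂(ET, ES, ET², ES²)` (interarrival times identically `1`,
service times `0` with probability `1-ρ` and `k` with probability `ρ`) which has a stationary
distribution, and for which the stationary mean waiting time is `EW₁ = 0` while the right-hand side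
of the conjectured inequality (a) is positive; so (a) fails. -/
theorem result (k : ℕ) (hk : 2 ≤ k) (ρ : ℝ) (h1 : 1 - 1 / (k : ℝ) < ρ) (h2 : ρ < 1) :
    ∃ (ET ES ET2 ES2 : ℝ) (μT μS : Measure ℝ), InQ2 ET ES ET2 ES2 μT μS ∧
      ES / (k * ET) = ρ ∧
      (∃ π, IsStationary k μT μS π) ∧
      ∀ π, IsStationary k μT μS π →
        2 * k ^ 2 * ρ * (1 - ρ) * ET * (∫ w, w ⟨0, by omega⟩ ∂π) <
          (1 - k * (1 - ρ)) *
            max (ES2 - (2 * k - 1) * ES * ET + k * (k - 1) * ET ^ 2) 0 := by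
  obtain ⟨ET, ES, ET2, ES2, μT, μS, a, b, c, d⟩ := KWq.main k hk ρ h1 h2
  refine ⟨ET, ES, ET2, ES2, μT, μS, a, b, c, fun π hπ => ?_⟩
  have := d π hπ
  unfold lhs rhs at this
  rwa [b] at this

end Pool.Agent.Results.MP_97409a_pr.LowerBoundFails
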