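import Pool.Agent.H1.KwD

open MeasureTheory KWq

namespace Pool.Agent.Results.MP_97409a_pr.NobodyWaits

/-- For every `k ≥ 2` and every `ρ` with `1 - 1/k < ρ < 1` there are moments `ET, ES, ET², ES²`
with `ES/(k ET) = ρ` and a system in `𝒬₂(ET, ES, ET², ES²)` which has a stationary distribution,
and for every stationary distribution the waiting time `W₁` is almost surely `0` (so it is
integrable and `EW₁ = 0`), while the right-hand side of the conjectured inequality (a) is larger
than the left-hand side; so (a) fails. -/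
theorem result (k : ℕ) (hk : 2 ≤ k) (ρ : ℝ) (h1 : 1 - 1 / (k : ℝ) < ρ) (h2 : ρ < 1) :
    ∃ (ET ES ET2 ES2 : ℝ) (μT μS : Measure ℝ), InQ2 ET ES ET2 ES2 μT μS ∧
      ES / (k * ET) = ρ ∧
      (∃ π, IsStationary k μT μS π) ∧
      ∀ π, IsStationary k μT μS π →
        (∀ᵐ w ∂π, w ⟨0, by omega⟩ = 0) ∧ Integrable (fun w => w ⟨0, by omega⟩) π ∧
        2 * k ^ 2 * ρ * (1 - ρ) * ET * (∫ w, w ⟨0, by omega⟩ ∂π) <
          (1 - k * (1 - ρ)) *
            max (ES2 - (2 * k - 1) * ES * ET + k * (k - 1) * ET ^ 2) 0 := by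
  have hk0 : (0 : ℝ) < k := by
    have : 0 < k := by omega
    exact_mod_cast this
  have hk2 : (2 : ℝ) ≤ k := by exact_mod_cast hk
  have h0 : 0 < ρ := by
    have : 1 / (k : ℝ) ≤ 1 := by
      rw [div_le_one hk0]; linarith
    linarith
  refine ⟨1, k * ρ, 1, k ^ 2 * ρ, Measure.dirac 1, two ρ k, inQ2 k h0.le h2.le, ?_, ?_, ?_⟩
  · rw [mul_one, mul_div_cancel_left₀ _ hk0.ne']
  · obtain ⟨m, rfl⟩ : ∃ m, k = m + 2 := ⟨k - 2, by omega⟩
    exact exists_stat h0.le h2.le
  · intro π hπ
    have hae : ∀ᵐ w ∂π, w (⟨0, by omega⟩ : Fin k) = 0 := by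
      filter_upwards [stat_ae h0.le h2 hπ] with w hw
      have := hw ⟨0, by omega⟩
      simp only [CharP.cast_eq_zero] at this
      linarith [this.1, this.2]
    refine ⟨hae, ?_, ?_⟩
    · exact (integrable_zero _ _ _).congr (by
        filter_upwards [hae] with w hw
        exact hw.symm)
    · have hz := stat_zero (by omega : 0 < k) h0.le h2 hπ
      rw [hz]
      have a1 : 0 < 1 - (k : ℝ) * (1 - ρ) := by
        have : (k : ℝ) * (1 - ρ) < k * (1 / k) := by
          apply mul_lt_mul_of_pos_left _ hk0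
          linarith
        rw [mul_one_div_cancel hk0.ne'] at this
        linarith
      have a2 : 0 < (k : ℝ) ^ 2 * ρ - (2 * k - 1) * (k * ρ) * 1 + k * (k - 1) * 1 ^ 2 := by
        have : (k : ℝ) ^ 2 * ρ - (2 * k - 1) * (k * ρ) * 1 + k * (k - 1) * 1 ^ 2 =
            k * ((k - 1) * (1 - ρ)) := by ring
        rw [this]
        have b1 : (0 : ℝ) < k - 1 := by linarith
        have b2 : 0 < 1 - ρ := by linarith
        positivity
      rw [mul_zero]
      exact mul_pos a1 (lt_max_of_lt_left a2)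

end Pool.Agent.Results.MP_97409a_pr.NobodyWaits
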